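import Pool.Agent.PFD.StmtsD5a

/-!
Row CTR of squad PFD: the centre of a full corner.
-/

open scoped BigOperators

noncomputable section

namespace Pool.Agent.PFD.H61

open Pool.Agent.PP
open Pool.Agent.PFC (Crn cv mkc cv_inj cv_mkc cv_mul cv_l cv_r cv_add cv_smul mkj cv_mkj)

section ring

variable {A : Type} [Ring A]

/-- the sum `∑ a_k ζ b_k` is central -/
theorem cen {n : ℕ} (a b : Fin n → A) (j e ζ : A) (he : ∀ x, e * x = x * e) (hej : e * j = j)
    (hs : e = ∑ k, a k * j * b k) (h1 : j * ζ = ζ) (h2 : ζ * j = ζ)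
    (hc : ∀ x, (j * x * j) * ζ = ζ * (j * x * j)) (x : A) :
    x * (∑ k, a k * ζ * b k) = (∑ k, a k * ζ * b k) * x := by
  have hez : e * ζ = ζ := by rw [← h1, ← mul_assoc, hej]
  have hzk : ∀ k, e * (a k * ζ * b k) = a k * ζ * b k := by
    intro k
    rw [← mul_assoc, ← mul_assoc, he, mul_assoc (a k), hez]
  have hz : e * (∑ k, a k * ζ * b k) = ∑ k, a k * ζ * b k := by
    rw [Finset.mul_sum]
    exact Finset.sum_congr rfl fun k _ => hzk k
  have key : ∀ l k, (a l * j * b l) * x * (a k * ζ * b k) =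
      (a l * ζ * b l) * x * (a k * j * b k) := by
    intro l k
    have h3 := hc (b l * x * a k)
    calc (a l * j * b l) * x * (a k * ζ * b k)
        = a l * (j * (b l * x * a k) * ζ) * b k := by noncomm_ring
      _ = a l * (j * (b l * x * a k) * (j * ζ)) * b k := by rw [h1]
      _ = a l * ((j * (b l * x * a k) * j) * ζ) * b k := by noncomm_ring
      _ = a l * (ζ * (j * (b l * x * a k) * j)) * b k := by rw [h3]
      _ = a l * ((ζ * j) * (b l * x * a k) * j) * b k := by noncomm_ring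
      _ = a l * (ζ * (b l * x * a k) * j) * b k := by rw [h2]
      _ = (a l * ζ * b l) * x * (a k * j * b k) := by noncomm_ring
  have h4 : e * x * (∑ k, a k * ζ * b k) = (∑ k, a k * ζ * b k) * x * e := by
    conv_lhs => rw [hs]
    conv_rhs => rw [hs]
    rw [Finset.sum_mul, Finset.sum_mul, Finset.sum_mul, Finset.sum_mul]
    apply Finset.sum_congr rfl
    intro l _
    rw [Finset.mul_sum, Finset.mul_sum]
    exact Finset.sum_congr rfl fun k _ => key l k
  calc x * (∑ k, a k * ζ * b k) = x * (e * (∑ k, a k * ζ * b k)) := by rw [hz]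
    _ = e * x * (∑ k, a k * ζ * b k) := by rw [he x, mul_assoc]
    _ = (∑ k, a k * ζ * b k) * x * e := h4
    _ = (e * (∑ k, a k * ζ * b k)) * x := by rw [mul_assoc, ← he x, ← mul_assoc, ← he]
    _ = (∑ k, a k * ζ * b k) * x := by rw [hz]

theorem cenj {n : ℕ} (a b : Fin n → A) (j e ζ : A) (hej : e * j = j)
    (hs : e = ∑ k, a k * j * b k) (h1 : j * ζ = ζ) (h2 : ζ * j = ζ)
    (hc : ∀ x, (j * x * j) * ζ = ζ * (j * x * j)) :
    (∑ k, a k * ζ * b k) * j = ζ := by
  have h3 : (∑ k, a k * ζ * b k) * j = e * j * ζ := by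
    rw [hs, Finset.sum_mul, Finset.sum_mul, Finset.sum_mul]
    apply Finset.sum_congr rfl
    intro k _
    calc a k * ζ * b k * j = a k * (ζ * j) * b k * j := by rw [h2]
      _ = a k * (ζ * (j * b k * j)) := by noncomm_ring
      _ = a k * ((j * b k * j) * ζ) := by rw [hc]
      _ = a k * j * b k * j * ζ := by noncomm_ring
  rw [h3, hej, h1]

theorem cene {n : ℕ} (a b : Fin n → A) (j e z : A) (hz : ∀ x, z * x = x * z)
    (hs : e = ∑ k, a k * j * b k) (hez : e * z = z) :
    (∑ k, a k * (z * j) * b k) = z := by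
  have h3 : (∑ k, a k * (z * j) * b k) = z * e := by
    rw [hs, Finset.mul_sum]
    apply Finset.sum_congr rfl
    intro k _
    calc a k * (z * j) * b k = (a k * z) * j * b k := by noncomm_ring
      _ = (z * a k) * j * b k := by rw [hz]
      _ = z * (a k * j * b k) := by noncomm_ring
  rw [h3, hz, hez]

end ring

variable {F G : Type} [Field F] [Group G] [Finite G]

/-- the centre of the block, as a space of functions -/
def Zb (e : G → F) : Submodule F (G → F) where
  carrier := {a | IsCl a ∧ mulF e a = a}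
  add_mem' := by
    rintro a b ⟨h1, h2⟩ ⟨h3, h4⟩
    exact ⟨H20.isCl_add h1 h3, by rw [H20.mulF_add, h2, h4]⟩
  zero_mem' := ⟨H20.isCl_zero, H20.mulF_zero e⟩
  smul_mem' := by
    rintro c a ⟨h1, h2⟩
    exact ⟨H20.isCl_smul c h1, by rw [H20.mulF_smul, h2]⟩

/-- the inversion -/
def inv1 : (G → F) ≃ₗ[F] (G → F) where
  toFun a := fun x => a x⁻¹
  invFun a := fun x => a x⁻¹
  left_inv a := by funext x; simp
  right_inv a := by funext x; simp
  map_add' a b := rfl
  map_smul' c a := rfl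

omit [Finite G] in
theorem isCl_inv1 {a : G → F} (h : IsCl a) : IsCl (inv1 a) := by
  intro x y
  change a (y * x * y⁻¹)⁻¹ = a x⁻¹
  rw [← h x⁻¹ y]
  congr 1
  group

omit [Finite G] in
theorem actF_inv1 (e : G → F) {a : G → F} (h : IsCl a) : actF e (inv1 a) = inv1 (mulF e a) := by
  funext x
  change (∑ᶠ t, e t * a (t * x)⁻¹) = ∑ᶠ t, e t * a (t⁻¹ * x⁻¹)
  apply finsum_congr
  intro t
  congr 1
  rw [← h (t * x)⁻¹ t⁻¹]
  congr 1
  group

theorem map_act {e : G → F} (he : IsIdem e) :
    (cfs F G).map (actL e) = (Zb e).map (inv1 : (G → F) ≃ₗ[F] (G → F)).toLinearMap := by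
  apply le_antisymm
  · rintro _ ⟨f, hf, rfl⟩
    have hf' : IsCl (inv1 f) := isCl_inv1 hf
    refine ⟨mulF e (inv1 f), ⟨H20.isCl_mulF he.1 hf', ?_⟩, ?_⟩
    · rw [← H20.mulF_assoc, he.2]
    · change inv1 (mulF e (inv1 f)) = actF e f
      rw [← actF_inv1 e hf']
      congr 1
      funext x
      change f (x⁻¹)⁻¹ = f x
      rw [inv_inv]
  · rintro _ ⟨a, ⟨h1, h2⟩, rfl⟩
    refine ⟨inv1 a, isCl_inv1 h1, ?_⟩
    change actF e (inv1 a) = inv1 a
    rw [actF_inv1 e h1, h2]

theorem rk_eq {e : G → F} (he : IsIdem e) : rk e (cfs F G) = Module.finrank F (Zb e) := by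
  unfold rk
  rw [map_act he]
  exact LinearEquiv.finrank_map_eq inv1 (Zb e)

/-- a finite sum -/
theorem exs {e j : G → F} (h : e ∈ Submodule.span F {x : G → F | ∃ a b, x = mulF a (mulF j b)}) :
    ∃ (n : ℕ) (a b : Fin n → MonoidAlgebra F G), H20.toMA e = ∑ k, a k * H20.toMA j * b k := by
  rw [Submodule.mem_span_set'] at h
  obtain ⟨n, f, g, h⟩ := h
  choose a b hab using fun k => (g k).2
  refine ⟨n, fun k => H20.toMA (f k • a k), fun k => H20.toMA (b k), ?_⟩
  have h5 : H20.toMA e = ∑ k, H20.toMA (f k • (g k : G → F)) := by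
    rw [← h]
    exact map_sum (H20.maE (F := F) (H := G)) _ _
  rw [h5]
  apply Finset.sum_congr rfl
  intro k _
  change H20.toMA (f k • (g k : G → F)) = H20.toMA (f k • a k) * H20.toMA j * H20.toMA (b k)
  rw [hab k, H20.toMA_smul, H20.toMA_smul, H20.toMA_mulF, H20.toMA_mulF, smul_mul_assoc,
    smul_mul_assoc, mul_assoc]

theorem ctr : CtrStmt := by
  intro F _ G _ _ e j he hej hj hspan
  rw [rk_eq he]
  obtain ⟨n, a, b, hs⟩ := exs hspan
  have hec : ∀ x : MonoidAlgebra F G, H20.toMA e * x = x * H20.toMA e := (H20.isCl_iff e).1 he.1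
  have hej' : H20.toMA e * H20.toMA j = H20.toMA j := by rw [← H20.toMA_mulF, hej]
  -- the map from the centre of the block to the centre of the corner
  have hmem : ∀ z : Zb e, mulF j (mulF z.1 j) = mulF z.1 j ∧ mulF (mulF z.1 j) j = mulF z.1 j := by
    intro z
    constructor
    · rw [H20.mulF_comm_of_cl z.2.1 j, ← H20.mulF_assoc, hj]
    · rw [H20.mulF_assoc, hj]
  let Φ : Zb e →ₗ[F] Subalgebra.center F (Crn hj) :=
    { toFun := fun z => ⟨mkc hj (mulF z.1 j) (hmem z), by
        rw [Subalgebra.mem_center_iff]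
        intro x
        apply cv_inj
        rw [cv_mul, cv_mul, cv_mkc, H20.mulF_assoc, cv_l, ← H20.mulF_assoc, ← H20.mulF_comm_of_cl z.2.1 (cv x),
          H20.mulF_assoc, cv_r]⟩
      map_add' := fun z w => by
        apply Subtype.ext
        apply cv_inj
        change mulF (z.1 + w.1) j = mulF z.1 j + mulF w.1 j
        rw [H20.add_mulF]
      map_smul' := fun c z => by
        apply Subtype.ext
        apply cv_inj
        change mulF (c • z.1) j = c • mulF z.1 j
        rw [H20.smul_mulF] }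
  have hinj : Function.Injective Φ := by
    intro z w hzw
    have h1 : mulF z.1 j = mulF w.1 j := congrArg (fun t => cv (Subtype.val t)) hzw
    have h2 : ∀ z : Zb e, ∑ k, a k * (H20.toMA z.1 * H20.toMA j) * b k = H20.toMA z.1 := by
      intro z
      refine cene a b (H20.toMA j) (H20.toMA e) (H20.toMA z.1) ((H20.isCl_iff z.1).1 z.2.1) hs ?_
      rw [← H20.toMA_mulF, z.2.2]
    apply Subtype.ext
    apply H20.toMA_injective
    rw [← h2 z, ← h2 w, ← H20.toMA_mulF, ← H20.toMA_mulF, h1]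
  have hsurj : Function.Surjective Φ := by
    rintro ⟨ζ, hζ⟩
    rw [Subalgebra.mem_center_iff] at hζ
    have h1 : H20.toMA j * H20.toMA (cv ζ) = H20.toMA (cv ζ) := by rw [← H20.toMA_mulF, cv_l]
    have h2 : H20.toMA (cv ζ) * H20.toMA j = H20.toMA (cv ζ) := by rw [← H20.toMA_mulF, cv_r]
    have hc : ∀ x : MonoidAlgebra F G, (H20.toMA j * x * H20.toMA j) * H20.toMA (cv ζ) =
        H20.toMA (cv ζ) * (H20.toMA j * x * H20.toMA j) := by
      intro x
      obtain ⟨y, rfl⟩ := H20.toMA_surjective x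
      have h3 := congrArg (fun t => H20.toMA (cv t)) (hζ (mkj hj y))
      change H20.toMA (cv (mkj hj y * ζ)) = H20.toMA (cv (ζ * mkj hj y)) at h3
      simp only [cv_mul, cv_mkj, H20.toMA_mulF] at h3
      rw [← mul_assoc (H20.toMA j)] at h3
      exact h3
    obtain ⟨z, hz⟩ := H20.toMA_surjective (∑ k, a k * H20.toMA (cv ζ) * b k)
    have hcen := cen a b (H20.toMA j) (H20.toMA e) (H20.toMA (cv ζ)) hec hej' hs h1 h2 hc
    have hj2 := cenj a b (H20.toMA j) (H20.toMA e) (H20.toMA (cv ζ)) hej' hs h1 h2 hc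
    have hzcl : IsCl z := by
      rw [H20.isCl_iff]
      intro x
      rw [hz]
      exact (hcen x).symm
    have hez : mulF e z = z := by
      apply H20.toMA_injective
      rw [H20.toMA_mulF, hz, Finset.mul_sum]
      apply Finset.sum_congr rfl
      intro k _
      have hez' : H20.toMA e * H20.toMA (cv ζ) = H20.toMA (cv ζ) := by rw [← h1, ← mul_assoc, hej']
      rw [← mul_assoc, ← mul_assoc, hec, mul_assoc (a k), hez']
    refine ⟨⟨z, hzcl, hez⟩, ?_⟩
    apply Subtype.ext
    apply cv_inj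
    change mulF z j = cv ζ
    apply H20.toMA_injective
    rw [H20.toMA_mulF, hz, hj2]
  exact (LinearEquiv.finrank_eq (LinearEquiv.ofBijective Φ ⟨hinj, hsurj⟩)).symm

end Pool.Agent.PFD.H61
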